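import Pool.Agent.Y240.KF.Stm

set_option autoImplicit false
set_option linter.unusedSectionVars false

/-!
# Perfect matchings in the random `r`-partite hypergraph
-/

namespace Pool.Agent.Y971.KF

open Finset
open scoped Classical
open Pool.Agent.TH965 Pool.Agent.TH965.Emb Pool.Agent.TH965.Spread
open Pool.Agent.TH948.KK (ind)
open Pool.Agent.Y240.KF

/-- The product of the symmetric groups acts on the transversal sets. -/
def act (r k : ℕ) : (Fin r → Equiv.Perm (Fin k)) →* Equiv.Perm (Fin r → Fin k) where
  toFun σ := Equiv.piCongrRight σ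
  map_one' := by
    ext h l
    rfl
  map_mul' σ τ := by
    ext h l
    rfl

lemma act_apply (r k : ℕ) (σ : Fin r → Equiv.Perm (Fin k)) (h : Fin r → Fin k) :
    act r k σ h = fun l => σ l (h l) := rfl

/-- The constant functions. -/
def cst (r k : ℕ) (x : Fin k) : Fin r → Fin k := fun _ => x

lemma cst_inj (s k : ℕ) : Function.Injective (cst (s + 1) k) := by
  intro x y h
  exact congrFun h 0

/-- Every embedding of a subset extends to a permutation. -/
lemma exists_ext (k : ℕ) (A : Finset (Fin k)) (e : {x // x ∈ A} ↪ Fin k) :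
    ∃ τ : Equiv.Perm (Fin k), ∀ x : {x // x ∈ A}, τ x.1 = e x := by
  refine ⟨(Equiv.ofInjective e e.injective).extendSubtype, fun x => ?_⟩
  have := (Equiv.ofInjective e e.injective).extendSubtype_apply_of_mem x.1 x.2
  rw [this]
  rfl

/-- The number of images. -/
lemma count (s k : ℕ) (A : Finset (Fin k)) :
    (k.descFactorial A.card) ^ s ≤
      (univ.image (fun g : Fin (s + 1) → Equiv.Perm (Fin k) =>
        (A.image (cst (s + 1) k)).image (act (s + 1) k g))).card := by
  have h1 : (univ : Finset (Fin s → ({x // x ∈ A} ↪ Fin k))).card = (k.descFactorial A.card) ^ s := by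
    rw [Finset.card_univ, Fintype.card_fun, Fintype.card_embedding_eq, Fintype.card_fin,
      Fintype.card_coe, Fintype.card_fin]
  rw [← h1]
  choose τ hτ using exists_ext k A
  have hmem : ∀ (e : Fin s → ({x // x ∈ A} ↪ Fin k)) (z : Fin (s + 1) → Fin k),
      z ∈ (A.image (cst (s + 1) k)).image (act (s + 1) k
        (Fin.cons (α := fun _ => Equiv.Perm (Fin k)) 1 (fun l => τ (e l)))) ↔
      ∃ x : {x // x ∈ A}, z = Fin.cons (α := fun _ => Fin k) x.1 (fun l => e l x) := by
    intro e z
    have hkey : ∀ x : {x // x ∈ A}, act (s + 1) k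
        (Fin.cons (α := fun _ => Equiv.Perm (Fin k)) 1 (fun l => τ (e l))) (cst (s + 1) k x.1)
        = Fin.cons (α := fun _ => Fin k) x.1 (fun l => e l x) := by
      intro x
      rw [act_apply]
      funext l
      refine Fin.cases ?_ (fun l => ?_) l
      · simp [cst]
      · simp only [Fin.cons_succ, cst]
        exact hτ (e l) x
    constructor
    · intro h
      rw [Finset.mem_image] at h
      obtain ⟨y, hy, rfl⟩ := h
      rw [Finset.mem_image] at hy
      obtain ⟨x, hx, rfl⟩ := hy
      exact ⟨⟨x, hx⟩, hkey ⟨x, hx⟩⟩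
    · rintro ⟨x, rfl⟩
      rw [← hkey x]
      exact Finset.mem_image_of_mem _ (Finset.mem_image_of_mem _ x.2)
  apply Finset.card_le_card_of_injOn (fun e : Fin s → ({x // x ∈ A} ↪ Fin k) =>
    (A.image (cst (s + 1) k)).image (act (s + 1) k
      (Fin.cons (α := fun _ => Equiv.Perm (Fin k)) 1 (fun l => τ (e l)))))
  · intro e _
    exact Finset.mem_coe.mpr (Finset.mem_image_of_mem _ (Finset.mem_univ _))
  · intro e _ e' _ h
    funext l
    ext x
    have h2 := (hmem e (Fin.cons (α := fun _ => Fin k) x.1 (fun l => e l x))).mpr ⟨x, rfl⟩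
    simp only at h
    rw [h, hmem e'] at h2
    obtain ⟨y, hy⟩ := h2
    have h3 := congrFun hy 0
    simp only [Fin.cons_zero] at h3
    have h4 := congrFun hy l.succ
    simp only [Fin.cons_succ] at h4
    have h5 : x = y := Subtype.ext h3
    rw [h4, h5]

/-- **Perfect matchings in the random `r`-partite hypergraph.** -/
theorem sham : StSham := by
  intro r k hr hk q d hq hsmall hd0 hd1
  obtain ⟨s, rfl⟩ : ∃ s, r = s + 1 := ⟨r - 1, by omega⟩
  rw [Nat.add_sub_cancel] at hq
  have hk0 : (0 : ℝ) < k := by exact_mod_cast hk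
  have he : 0 < (Real.exp 1 / k) ^ s := by positivity
  have hq0 : 0 < q := he.trans_le hq
  set H : Finset (Fin (s + 1) → Fin k) := univ.image (cst (s + 1) k) with hH
  have hcard : H.card = k := by
    rw [hH, Finset.card_image_of_injective _ (cst_inj s k), Finset.card_univ, Fintype.card_fin]
  have hne : H.Nonempty := by
    rw [← Finset.card_pos, hcard]
    omega
  have hmain := Pool.Agent.TH879.MS.action_tail (act (s + 1) k) univ H hne
    (fun g => Finset.subset_univ _) (fun _ => q) (fun _ => hq0) (fun _ _ _ => le_rfl)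
    (by
      intro u t _ hut
      apply mul_le_mul_of_nonneg_right _ hq0.le
      exact_mod_cast hut)
    (by
      intro A hA
      obtain ⟨B, _, rfl⟩ := Finset.subset_image_iff.mp hA
      have hB : (B.image (cst (s + 1) k)).card = B.card :=
        Finset.card_image_of_injective _ (cst_inj s k)
      rw [hB]
      have hBk : B.card ≤ k := by
        have := Finset.card_le_univ B
        rwa [Fintype.card_fin] at this
      have h1 : ((k.descFactorial B.card : ℝ)) ^ s ≤
          ((univ.image (fun g : Fin (s + 1) → Equiv.Perm (Fin k) =>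
            (B.image (cst (s + 1) k)).image (act (s + 1) k g))).card : ℝ) := by
        exact_mod_cast count s k B
      have h2 := Pool.Agent.TH965.Copy.pow_le_exp_mul_descFactorial k B.card hBk
      have h3 : 1 ≤ (k.descFactorial B.card : ℝ) * (Real.exp 1 / k) ^ B.card := by
        rw [div_pow, ← Real.exp_nat_mul, mul_one, mul_div_assoc', le_div_iff₀ (by positivity),
          one_mul, mul_comm]
        exact h2
      calc (1 : ℝ) ≤ ((k.descFactorial B.card : ℝ) * (Real.exp 1 / k) ^ B.card) ^ s :=
            one_le_pow₀ h3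
        _ = (k.descFactorial B.card : ℝ) ^ s * ((Real.exp 1 / k) ^ s) ^ B.card := by
            rw [mul_pow, ← pow_mul, ← pow_mul, mul_comm B.card s]
        _ ≤ _ := mul_le_mul h1 (pow_le_pow_left₀ he.le hq _) (by positivity) (by positivity))
    hsmall d hd0 hd1
  rw [hcard] at hmain
  have hsum : ∑ κ ∈ Finset.range (Nat.log 2 k + 1), (fun _ : ℕ => q) (2 ^ κ)
      = (Nat.log 2 k + 1 : ℝ) * q := by
    rw [Finset.sum_const, Finset.card_range, nsmul_eq_mul]
    push_cast
    ring
  rw [hsum] at hmain
  refine le_trans (le_of_eq ?_) hmain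
  congr 1
  funext T
  congr 1
  apply propext
  apply not_congr
  apply exists_congr
  intro σ
  constructor
  · intro h z hz
    rw [Finset.mem_image] at hz
    obtain ⟨y, hy, rfl⟩ := hz
    rw [hH, Finset.mem_image] at hy
    obtain ⟨x, _, rfl⟩ := hy
    exact h x
  · intro h x
    apply h
    rw [Finset.mem_image]
    exact ⟨cst (s + 1) k x, Finset.mem_image_of_mem _ (Finset.mem_univ _), rfl⟩

end Pool.Agent.Y971.KF
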